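import Pool.Agent.BEW.StmtsP
import Pool.Agent.Helper86_BEP.SCE
import Pool.Agent.Helper22_BEH.Sca

/-!
# DSC: scaling of the shell
-/

set_option autoImplicit false

namespace Pool.Agent.BEW.H39

open Set Filter Topology MeasureTheory
open scoped InnerProductSpace ENNReal
open Pool.Agent Pool.Agent.BE01 Pool.Agent.BEH Pool.Agent.BEP Pool.Agent.BEP.H86

noncomputable section

variable {d : ℕ}

theorem dsc_ae {R : ℝ} (h : R⁻¹ ≠ 0) {Ω : Set (En d)} {p : En d → Prop}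
    (hp : ∀ᵐ y ∂(mu Ω), p y) : ∀ᵐ x ∂(mu (Sc R Ω)), p (R⁻¹ • x) := by
  have h1 : ∀ᵐ y ∂(Measure.map (hm d R h) (BE01F.vol (Sc R Ω))), p y := by
    rw [map_vol h]
    exact Measure.ae_smul_measure hp _
  exact ae_of_ae_map (hm d R h).measurable.aemeasurable h1

theorem dsc_ml {E : Type} [NormedAddCommGroup E] {R : ℝ} (h : R⁻¹ ≠ 0) {Ω : Set (En d)}
    (f : Lp E 2 (mu Ω)) : MemLp (fun x => f (R⁻¹ • x)) 2 (mu (Sc R Ω)) := by
  have h0 : MemLp f 2 (BE01F.vol Ω) := Lp.memLp f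
  exact ml h h0

/-- Composition with the dilation. -/
def dsc_pb (E : Type) [NormedAddCommGroup E] [NormedSpace ℝ E] {R : ℝ} (h : R⁻¹ ≠ 0)
    (Ω : Set (En d)) : Lp E 2 (mu Ω) →L[ℝ] Lp E 2 (mu (Sc R Ω)) :=
  LinearMap.mkContinuous
    { toFun := fun f => (dsc_ml h f).toLp _
      map_add' := fun f g => by
        apply Lp.ext
        filter_upwards [MemLp.coeFn_toLp (dsc_ml h (f + g)), MemLp.coeFn_toLp (dsc_ml h f),
          MemLp.coeFn_toLp (dsc_ml h g),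
          Lp.coeFn_add ((dsc_ml h f).toLp _) ((dsc_ml h g).toLp _),
          dsc_ae h (Lp.coeFn_add f g)] with x h1 h2 h3 h4 h5
        rw [h1, h4, Pi.add_apply, h2, h3, h5, Pi.add_apply]
      map_smul' := fun c f => by
        apply Lp.ext
        filter_upwards [MemLp.coeFn_toLp (dsc_ml h (c • f)), MemLp.coeFn_toLp (dsc_ml h f),
          Lp.coeFn_smul c ((dsc_ml h f).toLp _),
          dsc_ae h (Lp.coeFn_smul c f)] with x h1 h2 h4 h5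
        rw [h1, RingHom.id_apply, h4, Pi.smul_apply, h2, h5, Pi.smul_apply] }
    (cf d R ^ (1 / (2 : ℝ≥0∞)).toReal).toReal (fun f => by
      have h1 : ‖(dsc_ml h f).toLp _‖ = (eLpNorm (fun x => f (R⁻¹ • x)) 2
          (BE01F.vol (Sc R Ω))).toReal := Lp.norm_toLp _ _
      have h2 := nm h (Ω := Ω) (f : En d → E)
      have h3 : ‖f‖ = (eLpNorm f 2 (BE01F.vol Ω)).toReal := Lp.norm_def f
      show ‖(dsc_ml h f).toLp _‖ ≤ _
      rw [h1, h2, h3, smul_eq_mul, ENNReal.toReal_mul])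

theorem dsc_pb_ae {E : Type} [NormedAddCommGroup E] [NormedSpace ℝ E] {R : ℝ} (h : R⁻¹ ≠ 0)
    (Ω : Set (En d)) (f : Lp E 2 (mu Ω)) :
    dsc_pb E h Ω f =ᵐ[mu (Sc R Ω)] fun x => f (R⁻¹ • x) :=
  MemLp.coeFn_toLp (dsc_ml h f)

theorem dsc_h10 {R : ℝ} (h : R⁻¹ ≠ 0) {Ω : Set (En d)} {u : Lp ℝ 2 (mu Ω)}
    {G : Lp (En d) 2 (mu Ω)} (hu : (u, G) ∈ BE01.H10 Ω) :
    (dsc_pb ℝ h Ω u, R⁻¹ • dsc_pb (En d) h Ω G) ∈ BE01.H10 (Sc R Ω) := by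
  have hc : Continuous fun P : Lp ℝ 2 (mu Ω) × Lp (En d) 2 (mu Ω) =>
      (dsc_pb ℝ h Ω P.1, R⁻¹ • dsc_pb (En d) h Ω P.2) :=
    ((dsc_pb ℝ h Ω).continuous.comp continuous_fst).prodMk
      (((dsc_pb (En d) h Ω).continuous.comp continuous_snd).const_smul R⁻¹)
  refine map_mem_closure (f := fun P : Lp ℝ 2 (mu Ω) × Lp (En d) 2 (mu Ω) =>
      (dsc_pb ℝ h Ω P.1, R⁻¹ • dsc_pb (En d) h Ω P.2)) hc hu ?_
  rintro P ⟨ψ, hψ, hP1, hP2⟩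
  have hψ' : BE01F.Test Ω ψ := hψ
  refine ⟨fun x => ψ (R⁻¹ • x), tst h hψ', ?_, ?_⟩
  · filter_upwards [dsc_pb_ae h Ω P.1, dsc_ae h hP1] with x h1 h2
    rw [h1, h2]
  · show ((R⁻¹ • dsc_pb (En d) h Ω P.2 : Lp (En d) 2 (mu (Sc R Ω))) : En d → En d)
      =ᵐ[mu (Sc R Ω)] gradient fun x => ψ (R⁻¹ • x)
    filter_upwards [dsc_pb_ae h Ω P.2, dsc_ae h hP2,
      Lp.coeFn_smul R⁻¹ (dsc_pb (En d) h Ω P.2)] with x h1 h2 h3
    rw [h3, Pi.smul_apply, h1, h2, grd hψ' x]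

theorem dsc_der {F : Type} [NormedAddCommGroup F] [NormedSpace ℝ F] {F' : Type}
    [NormedAddCommGroup F'] [NormedSpace ℝ F'] (A : F →L[ℝ] F') (R c : ℝ)
    {u : ℝ → F} {v : F} {t : ℝ} (h : HasDerivAt u v (R⁻¹ * t)) :
    HasDerivAt (fun t => c • A (u (R⁻¹ * t))) ((c * R⁻¹) • A v) t := by
  have h1 : HasDerivAt (fun t : ℝ => R⁻¹ * t) R⁻¹ t := by
    have := (hasDerivAt_id t).const_mul R⁻¹
    rw [mul_one] at this
    exact this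
  have h2 := HasDerivAt.scomp t h h1
  have h3 : HasDerivAt (fun t => A (u (R⁻¹ * t))) (A (R⁻¹ • v)) t :=
    A.hasFDerivAt.comp_hasDerivAt t h2
  have h4 := h3.const_smul c
  rw [map_smul, smul_smul] at h4
  exact h4

/-- Scaling of the domain. -/
theorem dsc_rt {R a al : ℝ} (hR : 0 < R) (hal : 0 < al) {Ω : Set (En d)} (H : Rt Ω a al) :
    Rt (Sc R Ω) (a * R ^ (al - 1)) al := by
  obtain ⟨u, v, w, G, hs, c, C, hc, hE⟩ := H
  have h : R⁻¹ ≠ 0 := inv_ne_zero hR.ne'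
  have hRi : 0 < R⁻¹ := inv_pos.2 hR
  have ht0 : ∀ t : ℝ, 0 ≤ t → 0 ≤ R⁻¹ * t := fun t ht => mul_nonneg hRi.le ht
  have hcon : ContinuousOn (fun t : ℝ => R⁻¹ * t) (Ici 0) := by fun_prop
  have hmaps : MapsTo (fun t : ℝ => R⁻¹ * t) (Ici 0) (Ici 0) := fun t ht => ht0 t ht
  refine ⟨fun t => (1 : ℝ) • dsc_pb ℝ h Ω (u (R⁻¹ * t)),
    fun t => (1 * R⁻¹) • dsc_pb ℝ h Ω (v (R⁻¹ * t)),
    fun t => (1 * R⁻¹ * R⁻¹) • dsc_pb ℝ h Ω (w (R⁻¹ * t)),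
    fun t => R⁻¹ • dsc_pb (En d) h Ω (G (R⁻¹ * t)),
    ⟨fun t ht => ?_, fun t ht => ?_, fun t ht => dsc_der _ R 1 (hs.du _ (ht0 t ht)),
      fun t ht => dsc_der _ R (1 * R⁻¹) (hs.dv _ (ht0 t ht)), ?_, ?_, fun t ht => ?_,
      fun t ht Ψ hΨ => ?_⟩, ?_⟩
  · rw [one_smul]
    exact dsc_h10 h (hs.dom _ (ht0 t ht))
  · obtain ⟨G', hG'⟩ := hs.vdom _ (ht0 t ht)
    exact ⟨_, BEH.H22.h10_smul (1 * R⁻¹) (dsc_h10 h hG')⟩
  · exact ((dsc_pb (En d) h Ω).continuous.comp_continuousOn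
      (hs.G_cont.comp hcon hmaps)).const_smul R⁻¹
  · exact ((dsc_pb ℝ h Ω).continuous.comp_continuousOn
      (hs.w_cont.comp hcon hmaps)).const_smul (1 * R⁻¹ * R⁻¹)
  · obtain ⟨D, hD⟩ := hs.v_bdd _ (ht0 t ht)
    refine ⟨R⁻¹ * D, ?_⟩
    filter_upwards [dsc_ae h hD, dsc_pb_ae h Ω (v (R⁻¹ * t)),
      Lp.coeFn_smul (1 * R⁻¹) (dsc_pb ℝ h Ω (v (R⁻¹ * t)))] with x h1 h2 h3
    rw [h3, Pi.smul_apply, smul_eq_mul, h2, abs_mul, one_mul, abs_of_pos hRi]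
    exact mul_le_mul_of_nonneg_left h1 hRi.le
  · have hΨ' : BE01F.Test (Sc R Ω) Ψ := hΨ
    have t1 : BE01F.Test Ω (fun x => Ψ (R⁻¹⁻¹ • x)) := by
      have h1 := tst (R := R⁻¹) (inv_ne_zero h) hΨ'
      rwa [sc_sc h Ω] at h1
    have e0 : Ψ = fun x => (fun x => Ψ (R⁻¹⁻¹ • x)) (R⁻¹ • x) := by
      funext x
      show Ψ x = Ψ (R⁻¹⁻¹ • (R⁻¹ • x))
      rw [smul_smul, inv_mul_cancel₀ h, one_smul]
    generalize (fun x => Ψ (R⁻¹⁻¹ • x)) = ψ at t1 e0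
    subst e0
    have h2 := hs.eq _ (ht0 t ht) ψ t1
    set g : En d → ℝ := fun y => w (R⁻¹ * t) y * ψ y + ⟪G (R⁻¹ * t) y, gradient ψ y⟫_ℝ +
      a * |v (R⁻¹ * t) y| ^ al * v (R⁻¹ * t) y * ψ y with hg
    have e3 := ig h (Ω := Ω) (fun y => R⁻¹ * (R⁻¹ * g y))
    have e2 : BE01F.intg Ω (fun y => R⁻¹ * (R⁻¹ * g y)) = 0 := by
      unfold BE01F.intg
      rw [integral_const_mul, integral_const_mul]
      have : ∫ x, g x ∂(BE01F.vol Ω) = 0 := h2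
      rw [this]
      simp
    rw [e2, mul_zero] at e3
    refine Eq.trans ?_ e3
    refine integral_congr_ae ?_
    have hp : R ^ (al - 1) * R⁻¹ ^ al * R⁻¹ = R⁻¹ * R⁻¹ := by
      rw [Real.rpow_sub_one hR.ne', Real.inv_rpow hR.le]
      have := (Real.rpow_pos_of_pos hR al).ne'
      field_simp
    filter_upwards [dsc_pb_ae h Ω (w (R⁻¹ * t)), dsc_pb_ae h Ω (v (R⁻¹ * t)),
      dsc_pb_ae h Ω (G (R⁻¹ * t)),
      Lp.coeFn_smul (1 * R⁻¹ * R⁻¹) (dsc_pb ℝ h Ω (w (R⁻¹ * t))),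
      Lp.coeFn_smul (1 * R⁻¹) (dsc_pb ℝ h Ω (v (R⁻¹ * t))),
      Lp.coeFn_smul R⁻¹ (dsc_pb (En d) h Ω (G (R⁻¹ * t)))] with x h3 h4 h5 h6 h7 h8
    rw [h6, h7, h8, Pi.smul_apply, Pi.smul_apply, Pi.smul_apply, h3, h4, h5, grd t1 x]
    simp only [smul_eq_mul, real_inner_smul_left, real_inner_smul_right, hg, one_mul]
    rw [abs_mul, abs_of_pos hRi, Real.mul_rpow hRi.le (abs_nonneg _)]
    linear_combination (a * |v (R⁻¹ * t) (R⁻¹ • x)| ^ al * v (R⁻¹ * t) (R⁻¹ • x) *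
      ψ (R⁻¹ • x)) * hp
  · have hen : ∀ t, energy (Sc R Ω) (fun t => (1 * R⁻¹) • dsc_pb ℝ h Ω (v (R⁻¹ * t)))
        (fun t => R⁻¹ • dsc_pb (En d) h Ω (G (R⁻¹ * t))) t =
        (cf d R).toReal * (R⁻¹ * (R⁻¹ * energy Ω v G (R⁻¹ * t))) := by
      intro t
      have e3 := ig h (Ω := Ω) (fun y => R⁻¹ * (R⁻¹ * (v (R⁻¹ * t) y ^ 2 +
        ‖G (R⁻¹ * t) y‖ ^ 2)))
      have e2 : BE01F.intg Ω (fun y => R⁻¹ * (R⁻¹ * (v (R⁻¹ * t) y ^ 2 +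
        ‖G (R⁻¹ * t) y‖ ^ 2))) = R⁻¹ * (R⁻¹ * energy Ω v G (R⁻¹ * t)) := by
        unfold BE01F.intg
        rw [integral_const_mul, integral_const_mul]
        rfl
      rw [e2] at e3
      refine Eq.trans ?_ e3
      refine integral_congr_ae ?_
      filter_upwards [dsc_pb_ae h Ω (v (R⁻¹ * t)),
        dsc_pb_ae h Ω (G (R⁻¹ * t)),
        Lp.coeFn_smul (1 * R⁻¹) (dsc_pb ℝ h Ω (v (R⁻¹ * t))),
        Lp.coeFn_smul R⁻¹ (dsc_pb (En d) h Ω (G (R⁻¹ * t)))] with x h4 h5 h7 h8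
      rw [h7, h8, Pi.smul_apply, Pi.smul_apply, h4, h5, norm_smul, Real.norm_eq_abs,
        abs_of_pos hRi, smul_eq_mul]
      ring
    have hcf : 0 < (cf d R).toReal := ENNReal.toReal_pos (cf_ne_zero h) (cf_ne_top R)
    set K : ℝ := (cf d R).toReal * (R⁻¹ * R⁻¹) with hK
    have hK0 : 0 < K := by positivity
    have hC : 0 < C := by
      have h0 := hE 0 le_rfl
      simp only [add_zero, Real.one_rpow, mul_one] at h0
      linarith [h0.1, h0.2]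
    have hM1 : 0 < max 1 R⁻¹ := lt_of_lt_of_le one_pos (le_max_left _ _)
    have hM2 : 0 < max 1 R := lt_of_lt_of_le one_pos (le_max_left _ _)
    have hex : -(2 / al) ≤ 0 := by
      have : 0 < 2 / al := by positivity
      linarith
    refine ⟨K * (c * (max 1 R⁻¹) ^ (-(2 / al))), K * (C * ((max 1 R)⁻¹) ^ (-(2 / al))),
      by positivity, fun t ht => ?_⟩
    have hE' := hE _ (ht0 t ht)
    have hkk : (cf d R).toReal * (R⁻¹ * (R⁻¹ * energy Ω v G (R⁻¹ * t))) =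
        K * energy Ω v G (R⁻¹ * t) := by
      rw [hK]
      ring
    rw [hen t, hkk]
    have b1 : 1 + R⁻¹ * t ≤ max 1 R⁻¹ * (1 + t) := by
      have l1 : (1 : ℝ) ≤ max 1 R⁻¹ := le_max_left _ _
      have l2 : R⁻¹ ≤ max 1 R⁻¹ := le_max_right _ _
      have l3 := mul_le_mul_of_nonneg_right l2 ht
      linarith
    have b2 : (max 1 R)⁻¹ * (1 + t) ≤ 1 + R⁻¹ * t := by
      have l1 : (max 1 R)⁻¹ ≤ 1 := inv_le_one_of_one_le₀ (le_max_left _ _)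
      have l2 : (max 1 R)⁻¹ ≤ R⁻¹ := inv_anti₀ hR (le_max_right _ _)
      have l3 := mul_le_mul_of_nonneg_right l2 ht
      linarith
    have p1 : 0 < 1 + R⁻¹ * t := by
      have := ht0 t ht
      linarith
    have p2 : 0 < 1 + t := by linarith
    constructor
    · have r1 : (max 1 R⁻¹ * (1 + t)) ^ (-(2 / al)) ≤ (1 + R⁻¹ * t) ^ (-(2 / al)) :=
        Real.rpow_le_rpow_of_nonpos p1 b1 hex
      rw [Real.mul_rpow hM1.le p2.le] at r1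
      calc K * (c * (max 1 R⁻¹) ^ (-(2 / al))) * (1 + t) ^ (-(2 / al))
          = K * (c * ((max 1 R⁻¹) ^ (-(2 / al)) * (1 + t) ^ (-(2 / al)))) := by ring
        _ ≤ K * (c * (1 + R⁻¹ * t) ^ (-(2 / al))) := by gcongr
        _ ≤ K * energy Ω v G (R⁻¹ * t) := mul_le_mul_of_nonneg_left hE'.1 hK0.le
    · have r1 : (1 + R⁻¹ * t) ^ (-(2 / al)) ≤ ((max 1 R)⁻¹ * (1 + t)) ^ (-(2 / al)) :=
        Real.rpow_le_rpow_of_nonpos (by positivity) b2 hex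
      rw [Real.mul_rpow (by positivity) p2.le] at r1
      calc K * energy Ω v G (R⁻¹ * t) ≤ K * (C * (1 + R⁻¹ * t) ^ (-(2 / al))) :=
            mul_le_mul_of_nonneg_left hE'.2 hK0.le
        _ ≤ K * (C * ((max 1 R)⁻¹ ^ (-(2 / al)) * (1 + t) ^ (-(2 / al)))) := by gcongr
        _ = K * (C * ((max 1 R)⁻¹) ^ (-(2 / al))) * (1 + t) ^ (-(2 / al)) := by ring

theorem dsc : DscStmt := by
  intro d r1 r2 s a al _ _ _ hs _ hal H
  have e : BER.Sh d (s * r1) (s * r2) = Sc s (BER.Sh d r1 r2) := by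
    ext x
    show (s * r1 < ‖x‖ ∧ ‖x‖ < s * r2) ↔ (r1 < ‖s⁻¹ • x‖ ∧ ‖s⁻¹ • x‖ < r2)
    rw [norm_smul, Real.norm_eq_abs, abs_of_pos (inv_pos.2 hs), lt_inv_mul_iff₀ hs,
      inv_mul_lt_iff₀ hs]
  rw [e]
  exact dsc_rt hs hal H

end

end Pool.Agent.BEW.H39
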