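import Pool.Agent.BEW.StmtsA

/-!
# AFB: the forcing terms average out
-/

set_option autoImplicit false

namespace Pool.Agent.BEW.H39

open Set Filter Topology MeasureTheory
open Pool.Agent.BEW

private lemma afb_osc1 (δ w φ T : ℝ) (hδ : 0 < δ) (hw : δ ≤ |w|) :
    |∫ s in (0 : ℝ)..T, Real.cos (w * s + φ)| ≤ 2 / δ := by
  have hw0 : w ≠ 0 := by
    intro h
    rw [h, abs_zero] at hw
    linarith
  have h1 : ∫ s in (0 : ℝ)..T, Real.cos (w * s + φ) =
      (Real.sin (w * T + φ) - Real.sin (w * 0 + φ)) / w := by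
    have hd : ∀ s ∈ uIcc (0 : ℝ) T,
        HasDerivAt (fun s => Real.sin (w * s + φ) / w) (Real.cos (w * s + φ)) s := by
      intro s _
      have h := (((hasDerivAt_id s).const_mul w).add_const φ).sin.div_const w
      have e : Real.cos (w * id s + φ) * (w * 1) / w = Real.cos (w * s + φ) := by
        simp only [id]
        field_simp
      rw [e] at h
      exact h
    have hc : Continuous fun s : ℝ => Real.cos (w * s + φ) := by fun_prop
    rw [intervalIntegral.integral_eq_sub_of_hasDerivAt hd (hc.intervalIntegrable _ _)]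
    ring
  rw [h1, abs_div]
  have h2 : |Real.sin (w * T + φ) - Real.sin (w * 0 + φ)| ≤ 2 := by
    rw [abs_le]
    have a1 := Real.sin_le_one (w * T + φ)
    have a2 := Real.neg_one_le_sin (w * T + φ)
    have a3 := Real.sin_le_one (w * 0 + φ)
    have a4 := Real.neg_one_le_sin (w * 0 + φ)
    constructor <;> linarith
  exact div_le_div₀ (by norm_num) h2 hδ hw

private lemma afb_osc2 (δ u w φ ψ T : ℝ) (hδ : 0 < δ) (h1 : δ ≤ |u - w|) (h2 : δ ≤ |u + w|) :
    |∫ s in (0 : ℝ)..T, Real.cos (u * s + φ) * Real.cos (w * s + ψ)| ≤ 2 / δ := by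
  have e : ∀ s : ℝ, Real.cos (u * s + φ) * Real.cos (w * s + ψ) =
      (1 / 2) * Real.cos ((u - w) * s + (φ - ψ)) + (1 / 2) * Real.cos ((u + w) * s + (φ + ψ)) := by
    intro s
    have a1 : (u - w) * s + (φ - ψ) = (u * s + φ) - (w * s + ψ) := by ring
    have a2 : (u + w) * s + (φ + ψ) = (u * s + φ) + (w * s + ψ) := by ring
    have b1 := Real.cos_sub (u * s + φ) (w * s + ψ)
    have b2 := Real.cos_add (u * s + φ) (w * s + ψ)
    rw [a1, a2, b1, b2]
    ring
  have hc1 : Continuous fun s : ℝ => (1 / 2) * Real.cos ((u - w) * s + (φ - ψ)) := by fun_prop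
  have hc2 : Continuous fun s : ℝ => (1 / 2) * Real.cos ((u + w) * s + (φ + ψ)) := by fun_prop
  have e2 : ∫ s in (0 : ℝ)..T, Real.cos (u * s + φ) * Real.cos (w * s + ψ) =
      (1 / 2) * (∫ s in (0 : ℝ)..T, Real.cos ((u - w) * s + (φ - ψ))) +
        (1 / 2) * ∫ s in (0 : ℝ)..T, Real.cos ((u + w) * s + (φ + ψ)) := by
    simp_rw [e]
    rw [intervalIntegral.integral_add (hc1.intervalIntegrable _ _) (hc2.intervalIntegrable _ _),
      intervalIntegral.integral_const_mul, intervalIntegral.integral_const_mul]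
  rw [e2]
  have b1 := abs_le.mp (afb_osc1 δ (u - w) (φ - ψ) T hδ h1)
  have b2 := abs_le.mp (afb_osc1 δ (u + w) (φ + ψ) T hδ h2)
  rw [abs_le]
  constructor <;> linarith [b1.1, b1.2, b2.1, b2.2]

private lemma afb_cs (S : Finset ℕ) (x y : ℕ → ℝ) (a c : ℝ) (ha : 0 ≤ a)
    (hx : ∑ k ∈ S, x k ^ 2 ≤ a ^ 2) (hy : ∑ k ∈ S, y k ^ 2 ≤ c) :
    ∑ k ∈ S, |x k| * |y k| ≤ a * Real.sqrt c := by
  have hc : 0 ≤ c := le_trans (Finset.sum_nonneg fun k _ => sq_nonneg _) hy
  have h := Finset.sum_mul_sq_le_sq_mul_sq S (fun k => |x k|) (fun k => |y k|)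
  simp only [sq_abs] at h
  have h2 : (∑ k ∈ S, |x k| * |y k|) ^ 2 ≤ (a * Real.sqrt c) ^ 2 := by
    rw [mul_pow, Real.sq_sqrt hc]
    refine le_trans h ?_
    exact mul_le_mul hx hy (Finset.sum_nonneg fun k _ => sq_nonneg _) (sq_nonneg _)
  exact abs_le_of_sq_le_sq' h2 (by positivity) |>.2

theorem afb (hT : TpaStmt) (hB : BslStmt) : AfbStmt := by
  intro f G m0 ε hf hG hm0 hε
  set K : ℝ := G * Real.sqrt m0 with hK
  have hK0 : 0 ≤ K := by positivity
  obtain ⟨J, a, c, hq⟩ := hT f (ε / (2 * (K + 1))) hf (by positivity)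
  refine ⟨J, fun δ hδ => ?_⟩
  set Q : ℝ := ∑ j ∈ Finset.range (J + 1), (|a j| + |c j|) with hQ
  have hQ0 : 0 ≤ Q := Finset.sum_nonneg fun j _ => by positivity
  refine ⟨1 + 8 * Q * K / (δ * ε), by positivity, ?_⟩
  intro X _ μ b om B hO hN T hT0 g hg hgG S P V θ h0
  have hTpos : 0 < T := lt_of_lt_of_le (by positivity) hT0
  have := hO.fin
  have hmu : 0 ≤ m0 := hm0.le
  obtain ⟨hb1, -⟩ := hB X μ b B m0 hO
  -- coefficients
  set gk : ℕ → ℝ := fun k => ∫ x, g x * b k x ∂μ with hgk
  have hgs : ∑ k ∈ S, gk k ^ 2 ≤ K ^ 2 := by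
    refine le_trans (hb1 S g hg ⟨G, hgG⟩) ?_
    have h1 : ∫ x, g x ^ 2 ∂μ ≤ ∫ _x, G ^ 2 ∂μ := by
      refine integral_mono_of_nonneg (Eventually.of_forall fun x => sq_nonneg _)
        (integrable_const _) (Eventually.of_forall fun x => ?_)
      exact sq_le_sq' (by linarith [(abs_le.mp (hgG x)).1]) (abs_le.mp (hgG x)).2
    refine le_trans h1 ?_
    rw [integral_const, smul_eq_mul, hK, mul_pow, Real.sq_sqrt hmu, mul_comm]
    exact mul_le_mul_of_nonneg_left hO.mass (sq_nonneg _)
  have hnn0 : 0 ≤ nn S P V := by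
    unfold nn
    exact Finset.sum_nonneg fun k _ => by positivity
  set h : ℕ → ℝ → ℝ := fun k s => V k * Real.cos (om k * s) - P k * Real.sin (om k * s) with hh
  have hI : ∀ s, ∫ x, g x * fre b om S P V s x ∂μ = ∑ k ∈ S, gk k * h k s := by
    intro s
    have e1 : ∀ x, g x * fre b om S P V s x = ∑ k ∈ S, h k s * (g x * b k x) := by
      intro x
      unfold fre
      rw [Finset.mul_sum]
      refine Finset.sum_congr rfl fun k _ => ?_
      simp only [hh]
      ring
    simp_rw [e1]
    rw [integral_finsetSum]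
    · refine Finset.sum_congr rfl fun k _ => ?_
      rw [integral_const_mul, mul_comm]
    · intro k _
      refine Integrable.const_mul ?_ _
      refine Integrable.of_bound ((hg.mul (hO.meas k)).aestronglyMeasurable) (G * B)
        (Eventually.of_forall fun x => ?_)
      rw [Real.norm_eq_abs, abs_mul]
      exact mul_le_mul (hgG x) (hO.bdd k x) (abs_nonneg _) hG
  have hhk : ∀ k s, h k s ^ 2 ≤ P k ^ 2 + V k ^ 2 := by
    intro k s
    simp only [hh]
    nlinarith [Real.sin_sq_add_cos_sq (om k * s),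
      sq_nonneg (V k * Real.sin (om k * s) + P k * Real.cos (om k * s))]
  have hIb : ∀ s, |∑ k ∈ S, gk k * h k s| ≤ K * Real.sqrt (nn S P V) := by
    intro s
    refine le_trans (Finset.abs_sum_le_sum_abs _ _) ?_
    simp only [abs_mul]
    refine afb_cs S gk (fun k => h k s) K (nn S P V) hK0 hgs ?_
    unfold nn
    exact Finset.sum_le_sum fun k _ => hhk k s
  have hhc : ∀ k, Continuous (h k) := by
    intro k
    simp only [hh]
    fun_prop
  have hIc : Continuous fun s => ∑ k ∈ S, gk k * h k s :=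
    continuous_finsetSum _ fun k _ => continuous_const.mul (hhc k)
  have hfc : Continuous fun s : ℝ => f (om 0 * s + θ) := by
    have := hf.1
    fun_prop
  set q : ℝ → ℝ := fun t =>
    ∑ j ∈ Finset.range (J + 1), (a j * Real.cos (j * t) + c j * Real.sin (j * t)) with hqd
  have hqc : Continuous fun s : ℝ => q (om 0 * s + θ) := by
    simp only [hqd]
    refine continuous_finsetSum _ fun j _ => ?_
    fun_prop
  simp_rw [hI]
  have split : ∫ s in (0 : ℝ)..T, f (om 0 * s + θ) * ∑ k ∈ S, gk k * h k s =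
      (∫ s in (0 : ℝ)..T, (f (om 0 * s + θ) - q (om 0 * s + θ)) * ∑ k ∈ S, gk k * h k s) +
      ∫ s in (0 : ℝ)..T, q (om 0 * s + θ) * ∑ k ∈ S, gk k * h k s := by
    have d1 : Continuous fun s : ℝ =>
        (f (om 0 * s + θ) - q (om 0 * s + θ)) * ∑ k ∈ S, gk k * h k s := (hfc.sub hqc).mul hIc
    have d2 : Continuous fun s : ℝ => q (om 0 * s + θ) * ∑ k ∈ S, gk k * h k s := hqc.mul hIc
    rw [← intervalIntegral.integral_add (d1.intervalIntegrable _ _) (d2.intervalIntegrable _ _)]
    refine intervalIntegral.integral_congr fun s _ => ?_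
    ring
  rw [split]
  -- the small part
  have p1 : |∫ s in (0 : ℝ)..T, (f (om 0 * s + θ) - q (om 0 * s + θ)) *
      ∑ k ∈ S, gk k * h k s| ≤ ε / 2 * T * Real.sqrt (nn S P V) := by
    have hb : ∀ s ∈ uIoc (0 : ℝ) T, ‖(f (om 0 * s + θ) - q (om 0 * s + θ)) *
        ∑ k ∈ S, gk k * h k s‖ ≤ ε / (2 * (K + 1)) * (K * Real.sqrt (nn S P V)) := by
      intro s _
      rw [Real.norm_eq_abs, abs_mul]
      exact mul_le_mul (hq _) (hIb s) (abs_nonneg _) (by positivity)
    have := intervalIntegral.norm_integral_le_of_norm_le_const hb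
    rw [Real.norm_eq_abs, sub_zero, abs_of_pos hTpos] at this
    refine le_trans this ?_
    have hk : ε / (2 * (K + 1)) * K ≤ ε / 2 := by
      rw [div_mul_eq_mul_div, div_le_div_iff₀ (by positivity) (by norm_num)]
      nlinarith
    have hs := Real.sqrt_nonneg (nn S P V)
    calc ε / (2 * (K + 1)) * (K * Real.sqrt (nn S P V)) * T
        = (ε / (2 * (K + 1)) * K) * (T * Real.sqrt (nn S P V)) := by ring
      _ ≤ ε / 2 * (T * Real.sqrt (nn S P V)) :=
          mul_le_mul_of_nonneg_right hk (by positivity)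
      _ = ε / 2 * T * Real.sqrt (nn S P V) := by ring
  -- the trigonometric part
  have osc : ∀ (j : ℕ), j ∈ Finset.range (J + 1) → ∀ k ∈ S, ∀ φ : ℝ,
      |∫ s in (0 : ℝ)..T, Real.cos (j * (om 0 * s + θ) + φ) * h k s| ≤
        2 / δ * (|V k| + |P k|) := by
    intro j hj k hk φ
    have hjJ : (j : ℤ) ≤ J := by
      have := Finset.mem_range.mp hj
      omega
    have hk1 : 1 ≤ k := by
      rcases Nat.eq_zero_or_pos k with h' | h'
      · rw [h'] at hk
        exact absurd hk h0
      · exact h'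
    have n1 := hN.n1 k (j : ℤ) hk1 (by rw [abs_of_nonneg (by positivity)]; exact hjJ)
    have n2 := hN.n1 k (-(j : ℤ)) hk1 (by
      rw [abs_neg, abs_of_nonneg (by positivity)]; exact hjJ)
    push_cast at n1 n2
    have m1 : δ ≤ |(j * om 0 : ℝ) - om k| := by
      rw [abs_sub_comm]
      exact n1
    have m2 : δ ≤ |(j * om 0 : ℝ) + om k| := by
      have e : (j * om 0 : ℝ) + om k = om k - -(j : ℝ) * om 0 := by ring
      rw [e]
      exact n2
    have e : ∀ s : ℝ, Real.cos (j * (om 0 * s + θ) + φ) * h k s =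
        V k * (Real.cos ((j * om 0) * s + (j * θ + φ)) * Real.cos (om k * s + 0)) +
        P k * (Real.cos ((j * om 0) * s + (j * θ + φ)) * Real.cos (om k * s + Real.pi / 2)) := by
      intro s
      rw [Real.cos_add_pi_div_two, add_zero]
      have e1 : (j : ℝ) * (om 0 * s + θ) + φ = (j * om 0) * s + (j * θ + φ) := by ring
      rw [e1]
      simp only [hh]
      ring
    simp_rw [e]
    have c1 : Continuous fun s : ℝ =>
        V k * (Real.cos ((j * om 0) * s + (j * θ + φ)) * Real.cos (om k * s + 0)) := by fun_prop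
    have c2 : Continuous fun s : ℝ =>
        P k * (Real.cos ((j * om 0) * s + (j * θ + φ)) * Real.cos (om k * s + Real.pi / 2)) := by
      fun_prop
    rw [intervalIntegral.integral_add (c1.intervalIntegrable _ _) (c2.intervalIntegrable _ _),
      intervalIntegral.integral_const_mul, intervalIntegral.integral_const_mul]
    refine le_trans (abs_add_le _ _) ?_
    rw [abs_mul, abs_mul]
    have o1 := afb_osc2 δ (j * om 0) (om k) (j * θ + φ) 0 T hδ m1 m2
    have o2 := afb_osc2 δ (j * om 0) (om k) (j * θ + φ) (Real.pi / 2) T hδ m1 m2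
    have r1 := mul_le_mul_of_nonneg_left o1 (abs_nonneg (V k))
    have r2 := mul_le_mul_of_nonneg_left o2 (abs_nonneg (P k))
    calc _ ≤ |V k| * (2 / δ) + |P k| * (2 / δ) := add_le_add r1 r2
      _ = 2 / δ * (|V k| + |P k|) := by ring
  have p2 : |∫ s in (0 : ℝ)..T, q (om 0 * s + θ) * ∑ k ∈ S, gk k * h k s| ≤
      Q * (4 / δ) * K * Real.sqrt (nn S P V) := by
    have e : ∀ s : ℝ, q (om 0 * s + θ) * ∑ k ∈ S, gk k * h k s =
        ∑ j ∈ Finset.range (J + 1), ∑ k ∈ S,
          (a j * gk k * (Real.cos (j * (om 0 * s + θ) + 0) * h k s) +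
            c j * gk k * (Real.cos (j * (om 0 * s + θ) + -(Real.pi / 2)) * h k s)) := by
      intro s
      simp only [hqd]
      rw [Finset.sum_mul_sum]
      refine Finset.sum_congr rfl fun j _ => Finset.sum_congr rfl fun k _ => ?_
      rw [← sub_eq_add_neg, Real.cos_sub_pi_div_two, add_zero]
      ring
    simp_rw [e]
    have ct : ∀ (j k : ℕ) (φ : ℝ),
        Continuous fun s : ℝ => Real.cos (j * (om 0 * s + θ) + φ) * h k s := by
      intro j k φ
      exact Continuous.mul (by fun_prop) (hhc k)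
    have cu : ∀ j k : ℕ, Continuous fun s : ℝ =>
        a j * gk k * (Real.cos (j * (om 0 * s + θ) + 0) * h k s) := fun j k =>
      continuous_const.mul (ct j k 0)
    have cv : ∀ j k : ℕ, Continuous fun s : ℝ =>
        c j * gk k * (Real.cos (j * (om 0 * s + θ) + -(Real.pi / 2)) * h k s) := fun j k =>
      continuous_const.mul (ct j k _)
    have cw : ∀ j k : ℕ, Continuous fun s : ℝ =>
        (a j * gk k * (Real.cos (j * (om 0 * s + θ) + 0) * h k s) +
          c j * gk k * (Real.cos (j * (om 0 * s + θ) + -(Real.pi / 2)) * h k s)) := fun j k =>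
      (cu j k).add (cv j k)
    have cz : ∀ j : ℕ, Continuous fun s : ℝ => ∑ k ∈ S,
        (a j * gk k * (Real.cos (j * (om 0 * s + θ) + 0) * h k s) +
          c j * gk k * (Real.cos (j * (om 0 * s + θ) + -(Real.pi / 2)) * h k s)) := fun j =>
      continuous_finsetSum _ fun k _ => cw j k
    rw [intervalIntegral.integral_finsetSum (fun j _ => (cz j).intervalIntegrable _ _)]
    have e3 : ∀ j ∈ Finset.range (J + 1), |∫ s in (0 : ℝ)..T, ∑ k ∈ S,
          (a j * gk k * (Real.cos (j * (om 0 * s + θ) + 0) * h k s) +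
            c j * gk k * (Real.cos (j * (om 0 * s + θ) + -(Real.pi / 2)) * h k s))| ≤
        (|a j| + |c j|) * (4 / δ * K * Real.sqrt (nn S P V)) := by
      intro j hj
      rw [intervalIntegral.integral_finsetSum (fun k _ => (cw j k).intervalIntegrable _ _)]
      refine le_trans (Finset.abs_sum_le_sum_abs _ _) ?_
      have e4 : ∀ k ∈ S, |∫ s in (0 : ℝ)..T,
          (a j * gk k * (Real.cos (j * (om 0 * s + θ) + 0) * h k s) +
            c j * gk k * (Real.cos (j * (om 0 * s + θ) + -(Real.pi / 2)) * h k s))| ≤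
          (|a j| + |c j|) * (2 / δ) * (|gk k| * |V k| + |gk k| * |P k|) := by
        intro k hk
        rw [intervalIntegral.integral_add ((cu j k).intervalIntegrable _ _)
          ((cv j k).intervalIntegrable _ _), intervalIntegral.integral_const_mul, intervalIntegral.integral_const_mul]
        refine le_trans (abs_add_le _ _) ?_
        rw [abs_mul, abs_mul, abs_mul, abs_mul]
        have o1 := osc j hj k hk 0
        have o2 := osc j hj k hk (-(Real.pi / 2))
        have r1 := mul_le_mul_of_nonneg_left o1 (mul_nonneg (abs_nonneg (a j)) (abs_nonneg (gk k)))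
        have r2 := mul_le_mul_of_nonneg_left o2 (mul_nonneg (abs_nonneg (c j)) (abs_nonneg (gk k)))
        calc _ ≤ |a j| * |gk k| * (2 / δ * (|V k| + |P k|)) +
              |c j| * |gk k| * (2 / δ * (|V k| + |P k|)) := add_le_add r1 r2
          _ = (|a j| + |c j|) * (2 / δ) * (|gk k| * |V k| + |gk k| * |P k|) := by ring
      refine le_trans (Finset.sum_le_sum e4) ?_
      rw [← Finset.mul_sum, Finset.sum_add_distrib]
      have s1 : ∑ k ∈ S, |gk k| * |V k| ≤ K * Real.sqrt (nn S P V) := by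
        refine afb_cs S gk V K (nn S P V) hK0 hgs ?_
        unfold nn
        exact Finset.sum_le_sum fun k _ => by nlinarith [sq_nonneg (P k)]
      have s2 : ∑ k ∈ S, |gk k| * |P k| ≤ K * Real.sqrt (nn S P V) := by
        refine afb_cs S gk P K (nn S P V) hK0 hgs ?_
        unfold nn
        exact Finset.sum_le_sum fun k _ => by nlinarith [sq_nonneg (V k)]
      have hac : 0 ≤ (|a j| + |c j|) * (2 / δ) := by positivity
      calc (|a j| + |c j|) * (2 / δ) * (∑ k ∈ S, |gk k| * |V k| + ∑ k ∈ S, |gk k| * |P k|)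
          ≤ (|a j| + |c j|) * (2 / δ) * (K * Real.sqrt (nn S P V) + K * Real.sqrt (nn S P V)) :=
            mul_le_mul_of_nonneg_left (add_le_add s1 s2) hac
        _ = (|a j| + |c j|) * (4 / δ * K * Real.sqrt (nn S P V)) := by ring
    refine le_trans (Finset.abs_sum_le_sum_abs _ _) ?_
    refine le_trans (Finset.sum_le_sum e3) ?_
    rw [← Finset.sum_mul, ← hQ]
    exact le_of_eq (by ring)
  have p3 : Q * (4 / δ) * K ≤ ε / 2 * T := by
    have h1 : ε / 2 * (1 + 8 * Q * K / (δ * ε)) ≤ ε / 2 * T :=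
      mul_le_mul_of_nonneg_left hT0 (by positivity)
    have h2 : ε / 2 * (1 + 8 * Q * K / (δ * ε)) = ε / 2 + Q * (4 / δ) * K := by
      field_simp
      ring
    rw [h2] at h1
    linarith
  calc _ ≤ ε / 2 * T * Real.sqrt (nn S P V) + Q * (4 / δ) * K * Real.sqrt (nn S P V) :=
        le_trans (abs_add_le _ _) (add_le_add p1 p2)
    _ ≤ ε / 2 * T * Real.sqrt (nn S P V) + ε / 2 * T * Real.sqrt (nn S P V) := by
        have := mul_le_mul_of_nonneg_right p3 (Real.sqrt_nonneg (nn S P V))
        linarith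
    _ = ε * T * Real.sqrt (nn S P V) := by ring

end Pool.Agent.BEW.H39
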